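import Pool.Agent.NTW.Main11
import Pool.Agent.NTW.TraceE
import Pool.Agent.NTW.Fin16

set_option autoImplicit false

namespace Pool.Agent.Results.MP_e73337_co.CentroidTheorem

open Finset

section defs

variable {p : ℕ}

/-- The graph `G` switched at the vertex set `S`: the pairs of distinct vertices with exactly one
member in `S` are complemented, all other pairs are kept.  `sw G {i}` is the switch of `G` at `i`,
and the graphs `sw G S` form the switching class of `G`. -/
def sw (G : SimpleGraph (Fin p)) (S : Finset (Fin p)) : SimpleGraph (Fin p) where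
  Adj u v := u ≠ v ∧ (G.Adj u v ↔ (u ∈ S ↔ v ∈ S))
  symm := ⟨by
    intro u v h
    refine ⟨h.1.symm, ?_⟩
    rw [G.adj_comm, h.2]
    tauto⟩
  loopless := ⟨fun u h => h.1 rfl⟩

/-- `G` and `H` have the same switching deck. -/
def SameDeck (G H : SimpleGraph (Fin p)) : Prop :=
  ∃ s : Equiv.Perm (Fin p), ∀ i, Nonempty (sw G {i} ≃g sw H {s i})

/-- `G` is switching-reconstructible. -/
def Recon (G : SimpleGraph (Fin p)) : Prop :=
  ∀ H : SimpleGraph (Fin p), SameDeck G H → Nonempty (G ≃g H)

/-- `s` is a class automorphism of `G`: it maps `G` onto a switching of `G`. -/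
def IsClassAut (G : SimpleGraph (Fin p)) (s : Equiv.Perm (Fin p)) : Prop :=
  ∃ S : Finset (Fin p), ∀ u v, (sw G S).Adj (s u) (s v) ↔ G.Adj u v

/-- `C` is a module of the switching class of `G`: any two vertices of `C` are separated (exactly one
of them is a neighbour) by no vertex outside `C`, or by all vertices outside `C`. -/
def IsMod (G : SimpleGraph (Fin p)) (C : Finset (Fin p)) : Prop :=
  ∀ z ∈ C, ∀ w ∈ C, (∀ x, x ∉ C → (G.Adj x z ↔ G.Adj x w)) ∨
    (∀ x, x ∉ C → ¬ (G.Adj x z ↔ G.Adj x w))

/-- The parts of `c` are its fibres; this is the part with label `i`. -/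
def part (c : Fin p → ℕ) (i : ℕ) : Finset (Fin p) := univ.filter fun x => c x = i

/-- The quotient of `G` by the parts of `c` is prime: no union of at least two parts which misses at
least two parts is a module. -/
def PrimeQ (G : SimpleGraph (Fin p)) (c : Fin p → ℕ) : Prop :=
  ∀ W : Finset (Fin p), IsMod G W → (∀ x ∈ W, ∀ y, c y = c x → y ∈ W) →
    (∀ x ∈ W, ∀ y ∈ W, c x = c y) ∨ (∀ x, x ∉ W → ∀ y, y ∉ W → c x = c y)

/-- The parts of `c` are a centroid of `G`: modules of the switching class, permuted by all class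
automorphisms, at least five, each with fewer than `p / 2` vertices, with prime quotient. -/
def Centroid (G : SimpleGraph (Fin p)) (c : Fin p → ℕ) : Prop :=
  (∀ i, IsMod G (part c i)) ∧
    (∀ s, IsClassAut G s → ∀ x y, c x = c y → c (s x) = c (s y)) ∧
    5 ≤ (univ.image c).card ∧ (∀ i, 2 * (part c i).card < p) ∧ PrimeQ G c

/-- The number of images of the vertex set `V` under the class automorphisms. -/
noncomputable def images (G : SimpleGraph (Fin p)) (V : Finset (Fin p)) : ℕ :=
  {W : Finset (Fin p) | ∃ s : Equiv.Perm (Fin p), IsClassAut G s ∧ W = V.map s.toEmbedding}.ncard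

/-- The number of class automorphisms which fix every vertex outside `V`. -/
noncomputable def localAuts (G : SimpleGraph (Fin p)) (V : Finset (Fin p)) : ℕ :=
  {s : Equiv.Perm (Fin p) | IsClassAut G s ∧ ∀ x, x ∉ V → s x = x}.ncard

/-- The number of permutations of the parts of `c` induced by class automorphisms. -/
noncomputable def partImages (G : SimpleGraph (Fin p)) (c : Fin p → ℕ) : ℕ :=
  {h : Fin p → ℕ | ∃ s, IsClassAut G s ∧ h = fun x => c (s x)}.ncard

/-- On the vertex set `V` the graph `K` induces a connected graph with connected complement and with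
at least `2 ^ (p / 4 - 2)` automorphisms. -/
def Side (K : SimpleGraph (Fin p)) (V : Set (Fin p)) : Prop :=
  (K.induce V).Connected ∧ (K.induce V)ᶜ.Connected ∧
    2 ^ (p / 4) ≤ 4 * Nat.card (K.induce V ≃g K.induce V)

/-- `U` is a module with exactly `p / 2` vertices, every vertex of `G` has exactly `p / 4` neighbours
on the other side of the partition into `U` and its complement, and in some switching of `G` there
are no edges between `U` and its complement and both are as in `Side`. -/
def BalancedHalf (G : SimpleGraph (Fin p)) (U : Finset (Fin p)) : Prop :=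
  IsMod G U ∧ 2 * U.card = p ∧ (∀ w ∉ U, 4 * {u | u ∈ U ∧ G.Adj w u}.ncard = p) ∧
    (∀ w ∈ U, 4 * {u | u ∉ U ∧ G.Adj w u}.ncard = p) ∧
    ∃ S : Finset (Fin p), (∀ u ∈ U, ∀ w, w ∉ U → ¬ (sw G S).Adj u w) ∧
      Side (sw G S) {x | x ∈ U} ∧ Side (sw G S) {x | x ∉ U}

end defs

theorem part_eq {p : ℕ} (c : Fin p → ℕ) (i : ℕ) : Pool.Agent.NTW.Fin5.part c i = part c i := by
  ext x
  rw [Pool.Agent.NTW.Fin5.mem_part]
  simp [part]

/-- Let `p ≠ 4`.
(1) Let `G` be a graph on `p` vertices that is not switching-reconstructible.  Then `G` has a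
centroid `c`, with `r` parts, such that the class automorphisms induce at least `2 ^ (r / 2 - 2)`
permutations of the parts, every part with `n` vertices, `k` images and `a` class automorphisms
which fix all vertices outside the part satisfies `2 ^ ⌈n / 2⌉ ≤ 2 k a`, and all parts but at most
two or exactly four (those in `E`, of even size) satisfy `n < 2 k` and even `2 ^ n ≤ 2 k a`; or
`p ≡ 4` mod 8 and `G` has a balanced half.
(2) In particular a graph is switching-reconstructible if it is switching-equivalent to a graph which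
arises from a prime graph `F` on `r ≥ 4` vertices by substituting nonempty graphs with fewer than
`p / 2` vertices for the vertices of `F`, and `F` has fewer than `2 ^ (r / 2 - 2)` class
automorphisms, or one of these graphs, with `n` vertices, has fewer than `2 ^ ⌈n / 2⌉ / (2 r)`
automorphisms, or at least five of them have at least `2 r` vertices;
(3) and it is if it is switching-equivalent to a cograph (a graph without an induced path on four
vertices). -/
theorem result (p : ℕ) (hp : p ≠ 4) :
    (∀ G : SimpleGraph (Fin p), ¬ Recon G →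
      (∃ c : Fin p → ℕ, Centroid G c ∧
        2 ^ (univ.image c).card ≤ (4 * partImages G c) ^ 2 ∧
        ∃ E : Finset ℕ, (E.card ≤ 2 ∨ E.card = 4) ∧ ∀ i ∈ univ.image c,
          2 ^ (((part c i).card + 1) / 2) ≤
            2 * (images G (part c i) * localAuts G (part c i)) ∧
          (i ∉ E → (part c i).card < 2 * images G (part c i) ∧
            2 ^ (part c i).card ≤ 2 * (images G (part c i) * localAuts G (part c i))) ∧
          (i ∈ E → Even (part c i).card)) ∨
      (p % 8 = 4 ∧ ∃ U : Finset (Fin p), BalancedHalf G U)) ∧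
    (∀ (r : ℕ) (F : SimpleGraph (Fin r)) (G : SimpleGraph (Fin p)) (S : Finset (Fin p))
      (π : Fin p → Fin r), 4 ≤ r →
      (∀ C : Finset (Fin r), IsMod F C → C.card ≤ 1 ∨ r ≤ C.card + 1) →
      ((4 * {s : Equiv.Perm (Fin r) | IsClassAut F s}.ncard) ^ 2 < 2 ^ r ∨
        (∃ i, 2 * (r * Nat.card ((sw G S).induce {x | π x = i} ≃g
            (sw G S).induce {x | π x = i})) <
          2 ^ (((univ.filter fun x => π x = i).card + 1) / 2)) ∨
        5 ≤ (univ.filter fun i => 2 * r ≤ (univ.filter fun x => π x = i).card).card) →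
      Function.Surjective π →
      (∀ u v, π u ≠ π v → ((sw G S).Adj u v ↔ F.Adj (π u) (π v))) →
      (∀ i, 2 * (univ.filter fun x => π x = i).card < p) → Recon G) ∧
    (∀ (G : SimpleGraph (Fin p)) (S : Finset (Fin p)),
      ¬ (SimpleGraph.pathGraph 4).IsIndContained (sw G S) → Recon G) := by
  refine ⟨fun G hG => ?_, fun r F G S π hr hF hA hπ hsub hsmall H hdeck =>
    hA.elim
      (fun h => Pool.Agent.NTW.subst_prime_main p r hp hr F hF h G S π hπ hsub hsmall H hdeck)
      (fun hA' => hA'.elim
        (fun ⟨i, h⟩ => Pool.Agent.NTW.subst_aut p r hr F hF G S π hπ hsub hsmall i h H hdeck)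
        (fun h => Pool.Agent.NTW.subst_sizes_main p r F hF G S π hπ hsub hsmall h H hdeck)),
    fun G S hS H hdeck => Pool.Agent.NTW.CographKept.cographs p hp G S hS H hdeck⟩
  obtain ⟨H, hdeck, hne⟩ : ∃ H : SimpleGraph (Fin p), SameDeck G H ∧ ¬ Nonempty (G ≃g H) := by
    by_contra hcon
    apply hG
    intro H hdeck
    by_contra hne
    exact hcon ⟨H, hdeck, hne⟩
  rcases Pool.Agent.NTW.centroid_thm_b p hp G H hdeck hne with
    ⟨h8, U, hU, hUc⟩ | ⟨c, h1, h2, h3, h4, h5, -⟩
  · right
    obtain ⟨b1, b2⟩ := Pool.Agent.NTW.half_balanced p hp h8 G U hU hUc H hdeck hne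
    obtain ⟨S, c0, c1, c2, c3, c4, c5, c6⟩ :=
      Pool.Agent.NTW.half_sides_main p hp h8 G U hU hUc H hdeck hne
    refine ⟨h8, U, hU, hUc, fun w hw => ?_, fun w hw => ?_, S, c0, ⟨c1, c2, c5⟩, ⟨c3, c4, c6⟩⟩
    · have := b1 w hw
      omega
    · have := b2 w hw
      omega
  · left
    have h6 : ∃ y z, c y ≠ c z := by
      by_contra hcon
      push Not at hcon
      have : (univ.image c).card ≤ 1 := by
        rw [Finset.card_le_one]
        intro i hi j hj
        obtain ⟨x, -, rfl⟩ := Finset.mem_image.1 hi
        obtain ⟨y, -, rfl⟩ := Finset.mem_image.1 hj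
        exact hcon x y
      omega
    obtain ⟨E, -, e1, e2, e3, e4⟩ :=
      Pool.Agent.NTW.part_orders p G H hdeck hne c h1 h2 h5
    refine ⟨c, ⟨fun i => ?_, h5, h3, fun i => ?_, h4⟩, ?_, E, e1, fun i hi => ⟨?_, ?_, ?_⟩⟩
    · rw [← part_eq]
      exact h1 i
    · rw [← part_eq]
      exact h2 i
    · by_contra hM
      push Not at hM
      exact hne (Pool.Agent.NTW.parts_main p hp G c h1 h6 h5 hM H hdeck)
    · rw [← part_eq]
      exact e2 i hi
    · rw [← part_eq]
      exact e3 i hi
    · rw [← part_eq]
      exact e4 i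

end Pool.Agent.Results.MP_e73337_co.CentroidTheorem
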