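import Pool.Agent.RGP15.Near
import Pool.Agent.RGP15.Twin
import Pool.Agent.NTW.OddSets2

set_option autoImplicit false

/-!
# MP_e73337_co: a family of modules of a counterexample has exponentially many images (helper15)
-/

namespace Pool.Agent.Results.MP_e73337_co.ImageBound

open Finset Pool.Agent.NTW Pool.Agent.Lib_helper61.SwitchBasic Pool.Agent.RGP15

variable {α : Type} {ι : Type}

theorem classAut_sw_iff [DecidableEq α] (G : SimpleGraph α) (X : Finset α) (σ : Equiv.Perm α) :
    IsClassAut (sw G X) σ ↔ IsClassAut G σ :=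
  ⟨classAut_unsw G X σ, classAut_sw G X σ⟩

theorem tclasses_sw [Fintype α] [DecidableEq α] (G : SimpleGraph α) (X : Finset α) :
    tclasses (sw G X) = tclasses G := by
  have h : ∀ x, tcl (sw G X) x = tcl G x := by
    intro x
    ext y
    rw [mem_tcl, mem_tcl]
    exact classAut_sw_iff G X _
  ext C
  rw [mem_tclasses, mem_tclasses]
  exact exists_congr fun x => by rw [h]

/-- Let `sw G X` (any graph of the switching class of `G`) and `H` be non-isomorphic graphs on `p` vertices with the same
switching deck.  (1) If `G` has `N ≥ 2` twin classes up to switching, then `p < 256 (N!) ^ 4`.  (2) Let the sets `M i`,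
`i < k`, be pairwise disjoint, and let `q` be the number of images of the family `M` under the class automorphisms.
(2a) If the `M i` are modules up to switching or at least sets which can be glued, then
`∑ |M i| / s i ≤ 2 log₂ (4 q)` whenever every `M i` is light with respect to `s i ≥ 1`.  (2b) If all `M i` have odd size
(and no other property), or if they are not empty and modules up to switching or sets which can be glued, then
`k ≤ 4 + 2 log₂ q`.  (2c) Let all class automorphisms which fix a vertex set `R` pointwise map every `M i` onto itself.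
Then `k ≤ 4 + 2 |R| log₂ p`, if all `M i` have odd size, or if they are not empty and can be glued, or if they are not
empty and these automorphisms move every vertex `y` of `M i` to a vertex separated from `y` by all or by no vertices
outside `M i`.  (2d) Let `|R₀| ≤ t D`, `D ≥ 1`, and for all `y` in some `M i` and `z` outside this `M i` let at least
`D` vertices of `R₀` be adjacent to exactly one of `y`, `z` and at least `D` to both or none.  Then
`k ≤ 4 + 4 t L (L + 1)`, `L = ⌈log₂ p⌉`, if all `M i` have odd size, or if they are not empty and can be glued, or if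
they are not empty and any two near vertices of `M i` are separated by all or by no vertices outside `M i`. -/
theorem result (p : ℕ) (G : SimpleGraph (Fin p)) (X : Finset (Fin p)) (H : SimpleGraph (Fin p))
    (hdeck : SameDeck (sw G X) H) (hne : ¬ Nonempty (sw G X ≃g H)) :
    (2 ≤ (tclasses G).card → p < 256 * (Nat.factorial (tclasses G).card) ^ 4) ∧
    ∀ (k : ℕ) (M : Fin k → Finset (Fin p)), (∀ i j, i ≠ j → Disjoint (M i) (M j)) →
      ((Glue G M ∨ ∀ i, IsMod G (M i)) →
        ∀ s : Fin k → ℕ, (∀ i, 1 ≤ s i ∧ Light G M i (s i)) →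
          ∑ i, ((M i).card : ℝ) / s i ≤ 2 * Real.logb 2 (4 * (Images G M).ncard)) ∧
      ((∀ i, Odd (M i).card) ∨ (∀ i, (M i).Nonempty) ∧ (Glue G M ∨ ∀ i, IsMod G (M i)) →
        (k : ℝ) ≤ 4 + 2 * Real.logb 2 (Images G M).ncard) ∧
      (∀ R : Finset (Fin p),
        (∀ σ : Equiv.Perm (Fin p), IsClassAut G σ → (∀ r ∈ R, σ r = r) →
          ∀ i, (M i).map σ.toEmbedding = M i) →
        ((∀ i, Odd (M i).card) ∨ (∀ i, (M i).Nonempty) ∧ (Glue G M ∨
          ∀ σ : Equiv.Perm (Fin p), IsClassAut G σ → (∀ r ∈ R, σ r = r) →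
            ∀ i, ∀ y ∈ M i, Same G (M i) y (σ y))) →
        (k : ℝ) ≤ 4 + 2 * R.card * Real.logb 2 p) ∧
      ∀ (R₀ : Finset (Fin p)) (D t : ℕ), 1 ≤ D → R₀.card ≤ t * D →
        (∀ i, ∀ y ∈ M i, ∀ z, z ∉ M i →
          D ≤ (sep G y z ∩ R₀).card ∧ D ≤ (cosep G y z ∩ R₀).card) →
        ((∀ i, Odd (M i).card) ∨ (∀ i, (M i).Nonempty) ∧ (Glue G M ∨
          ∀ i, ∀ y ∈ M i, ∀ z ∈ M i, Near G R₀ D y z → Same G (M i) y z)) →
        k ≤ 4 + 4 * t * Nat.clog 2 p * (Nat.clog 2 p + 1) := by
  refine ⟨fun hN => ?_, fun k M hdisj => ?_⟩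
  · have h := few_twin_classes _ H hdeck hne (by rw [tclasses_sw]; exact hN)
    rwa [tclasses_sw, Fintype.card_fin] at h
  have himg : Images (sw G X) M = Images G M := by
    ext Φ
    simp only [Images, Set.mem_ofPred_eq, classAut_sw_iff]
  have hloc : ∀ i, LocAut (sw G X) M i = LocAut G M i := by
    intro i
    ext φ
    simp only [LocAut, Set.mem_ofPred_eq, classAut_sw_iff]
  have hlight : ∀ i s, Light G M i s → Light (sw G X) M i s := by
    intro i s h
    rcases h with h | h | h
    · exact Or.inl h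
    · exact Or.inr (Or.inl (by rw [hloc]; exact h))
    · exact Or.inr (Or.inr ⟨h.1, fun z hz w hw => classAut_sw G X _ (h.2.1 z hz w hw), h.2.2⟩)
  have main : (Glue G M ∨ ∀ i, IsMod G (M i)) →
      ∀ s : Fin k → ℕ, (∀ i, 1 ≤ s i ∧ Light G M i (s i)) →
      ∑ i, ((M i).card : ℝ) / s i ≤ 2 * Real.logb 2 (4 * (Images G M).ncard) := by
    intro hG s hs
    have hglue : Glue (sw G X) M := by
      rcases hG with h | h
      · exact glue_sw G X M h
      · exact glue_sw G X M (glue_of_mod G M h)
    rw [← himg]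
    exact image_bound3 _ H hdeck hne M hdisj hglue univ s (fun i => (hs i).1)
      (fun i _ => hlight i _ (hs i).2)
  have hq1 : 1 ≤ (Images G M).ncard := images_pos G M
  have hqR : (0 : ℝ) < (Images G M).ncard := by exact_mod_cast hq1
  have h4 : Real.logb 2 (4 : ℝ) = 2 := by
    rw [show (4 : ℝ) = (2 : ℝ) ^ (2 : ℕ) by norm_num, Real.logb_pow,
      Real.logb_self_eq_one (by norm_num)]
    norm_num
  have hk : (∀ i, Odd (M i).card) ∨ (∀ i, (M i).Nonempty) ∧ (Glue G M ∨ ∀ i, IsMod G (M i)) →
      (k : ℝ) ≤ 4 + 2 * Real.logb 2 (Images G M).ncard := by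
    intro hkind
    have h0 : (k : ℝ) ≤ 2 * Real.logb 2 (4 * (Images G M).ncard) := by
      rcases hkind with hodd | ⟨hnon, hG⟩
      · have h1 := Pool.Agent.NTW.OddSets.odd_bound _ H hdeck hne k M hdisj hodd
        rw [himg] at h1
        have h2 : Real.logb 2 ((2 : ℝ) ^ (k - k / 2)) ≤
            Real.logb 2 (4 * (Images G M).ncard) := by
          refine Real.logb_le_logb_of_le (by norm_num) (by positivity) ?_
          exact_mod_cast h1
        rw [Real.logb_pow, Real.logb_self_eq_one (by norm_num), mul_one] at h2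
        have h3 : (k : ℝ) ≤ 2 * ((k - k / 2 : ℕ) : ℝ) := by
          have : k ≤ 2 * (k - k / 2) := by omega
          exact_mod_cast this
        linarith
      · have h := main hG (fun i => (M i).card)
          (fun i => ⟨Finset.card_pos.2 (hnon i), Or.inl (le_refl _)⟩)
        have hone : ∀ i ∈ (univ : Finset (Fin k)), ((M i).card : ℝ) / (M i).card = 1 := by
          intro i _
          have : (0 : ℝ) < (M i).card := by exact_mod_cast Finset.card_pos.2 (hnon i)
          exact div_self this.ne'
        rw [Finset.sum_congr rfl hone] at h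
        simpa using h
    rw [Real.logb_mul (by norm_num) hqR.ne', h4] at h0
    linarith
  have hRk : ∀ R : Finset (Fin p),
      (∀ σ : Equiv.Perm (Fin p), IsClassAut G σ → (∀ r ∈ R, σ r = r) →
        ∀ i, (M i).map σ.toEmbedding = M i) →
      ((∀ i, Odd (M i).card) ∨ (∀ i, (M i).Nonempty) ∧ (Glue G M ∨
        ∀ σ : Equiv.Perm (Fin p), IsClassAut G σ → (∀ r ∈ R, σ r = r) →
          ∀ i, ∀ y ∈ M i, Same G (M i) y (σ y))) →
      (k : ℝ) ≤ 4 + 2 * R.card * Real.logb 2 p := by
    intro R hR hkind
    have hcase : (∀ i, Odd (M i).card) ∨ (∀ i, (M i).Nonempty) ∧ (Glue G M ∨ ∀ i, IsMod G (M i)) →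
        (k : ℝ) ≤ 4 + 2 * R.card * Real.logb 2 p := by
      intro hkind'
      have h1 := images_le G M R hR
      rw [Fintype.card_fin] at h1
      have h2 : ((Images G M).ncard : ℝ) ≤ (p : ℝ) ^ R.card := by exact_mod_cast h1
      have h3 : Real.logb 2 (Images G M).ncard ≤ Real.logb 2 ((p : ℝ) ^ R.card) :=
        Real.logb_le_logb_of_le (by norm_num) hqR h2
      rw [Real.logb_pow] at h3
      have := hk hkind'
      linarith
    rcases hkind with h | ⟨hnon, h | h⟩
    · exact hcase (Or.inl h)
    · exact hcase (Or.inr ⟨hnon, Or.inl h⟩)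
    · have := stab_bound G X H hdeck hne k M hdisj hnon R hR h
      rwa [Fintype.card_fin] at this
  refine ⟨main, hk, hRk, fun R₀ D t hD hR₀ hsep hkind => ?_⟩
  obtain ⟨L, hL⟩ : ∃ L, L = Nat.clog 2 p := ⟨_, rfl⟩
  rw [← hL]
  have hpL : p ≤ 2 ^ L := by rw [hL]; exact Nat.le_pow_clog (by norm_num) _
  obtain ⟨R, hR, hRN⟩ := exists_R_near G R₀ D t L hD hR₀ (by rw [Fintype.card_fin]; exact hpL)
  have hmem : ∀ σ : Equiv.Perm (Fin p), IsClassAut G σ → (∀ r ∈ R, σ r = r) →
      ∀ i, ∀ y ∈ M i, σ y ∈ M i := by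
    intro σ hσ hfix i y hy
    by_contra hout
    have h1 := hsep i y hy (σ y) hout
    rcases hRN σ hσ hfix y with h | h <;> omega
  have hRM : ∀ σ : Equiv.Perm (Fin p), IsClassAut G σ → (∀ r ∈ R, σ r = r) →
      ∀ i, (M i).map σ.toEmbedding = M i := by
    intro σ hσ hfix i
    refine Finset.eq_of_subset_of_card_le ?_ (by rw [Finset.card_map])
    intro z hz
    obtain ⟨y, hy, rfl⟩ := Finset.mem_map.1 hz
    exact hmem σ hσ hfix i y hy
  have h1 := hRk R hRM (by
    rcases hkind with h | ⟨hnon, h | h⟩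
    · exact Or.inl h
    · exact Or.inr ⟨hnon, Or.inl h⟩
    · exact Or.inr ⟨hnon, Or.inr fun σ hσ hfix i y hy =>
        h i y hy (σ y) (hmem σ hσ hfix i y hy) (hRN σ hσ hfix y)⟩)
  have hlog : Real.logb 2 p ≤ L := by
    rcases Nat.eq_zero_or_pos p with h0 | hpos
    · rw [h0]
      simp
    · have hp0 : (0 : ℝ) < p := by exact_mod_cast hpos
      rw [Real.logb_le_iff_le_rpow (by norm_num) hp0, Real.rpow_natCast]
      exact_mod_cast hpL
  have h2 : (R.card : ℝ) ≤ ((2 * L + 2) * t : ℕ) := by exact_mod_cast hR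
  have h3 : (k : ℝ) ≤ ((4 + 4 * t * L * (L + 1) : ℕ) : ℝ) := by
    calc (k : ℝ) ≤ 4 + 2 * R.card * Real.logb 2 p := h1
      _ ≤ 4 + 2 * R.card * L := by
          have : (0 : ℝ) ≤ 2 * R.card := by positivity
          nlinarith [mul_le_mul_of_nonneg_left hlog this]
      _ ≤ 4 + 2 * ((2 * L + 2) * t : ℕ) * L := by
          have : (0 : ℝ) ≤ L := by positivity
          nlinarith [mul_le_mul_of_nonneg_right h2 this]
      _ = ((4 + 4 * t * L * (L + 1) : ℕ) : ℝ) := by
          push_cast
          ring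
  exact_mod_cast h3

end Pool.Agent.Results.MP_e73337_co.ImageBound
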