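import Pool.Agent.NTW.Degs

set_option autoImplicit false

namespace Pool.Agent.Results.MP_e73337_co.SparseClasses

open Pool.Agent.Lib_helper61.SwitchBasic Pool.Agent.NTW Pool.Agent.NTW.Three Finset

/-- **Odd orbits and rigid graphs** (`p ≠ 4` vertices).  `C` is rigid if all automorphisms of its switching class are
automorphisms of `C`.

(1) If three pairwise disjoint vertex sets of odd size are invariant under all automorphisms of the switching class of
`G` (equivalently: if these have at least three orbits of odd size), then every graph of this class is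
switching-reconstructible.

(2) Let the graph `C` have at most `p - 4` edges, or let `C` be rigid and let three vertices of `C` be fixed by all
automorphisms of `C`, or let `C` be rigid with at least three components, none with more than `p - 3` vertices.  Then
every graph of the switching class of `C` is switching-reconstructible.

(3) If `C` is rigid and `A` is a vertex set which is invariant under all automorphisms of the switching class (for
example the empty set), then `C` switched at any vertex set `X` such that the size of `X Δ A` differs from `p / 2` by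
more than 1 is switching-reconstructible.

(4) A graph with `m` edges is rigid if every vertex has degree less than `p / 2 - 2 m / p`.  Every switching class with
an invariant vertex set of odd size contains a rigid graph.

(5) A graph `C` with `m` edges switched at `X` is switching-reconstructible if the size of `X` differs from `p / 2` by
more than `12 ⌊4 m / p⌋ + 1`.

(6) In general let every labelled graph of the switching class of `C` which is isomorphic to `C` be `C` switched at at
most `δ` or at least `p - δ` vertices, and let `A` be a vertex set which is invariant under all automorphisms of the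
switching class.  If the size of `X Δ A` differs from `p / 2` by more than `12 δ + 1`, then `C` switched at `X` is
switching-reconstructible. -/
theorem result :
    (∀ p : ℕ, p ≠ 4 → ∀ (G : SimpleGraph (Fin p)) (Y : Fin 3 → Finset (Fin p)),
      (∀ i, Odd (Y i).card ∧ IsInvariant G (Y i)) → (∀ i j, i ≠ j → Disjoint (Y i) (Y j)) →
      ∀ (X : Finset (Fin p)) (H : SimpleGraph (Fin p)), SameDeck (sw G X) H →
        Nonempty (sw G X ≃g H)) ∧
    (∀ p : ℕ, p ≠ 4 → ∀ (C : SimpleGraph (Fin p)) [DecidableRel C.Adj],
      (C.edgeFinset.card + 4 ≤ p ∨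
        (Rigid C ∧ ∃ T : Finset (Fin p), T.card = 3 ∧ ∀ φ : C ≃g C, ∀ v ∈ T, φ v = v) ∨
        (Rigid C ∧ 3 ≤ Nat.card C.ConnectedComponent ∧
          ∀ c : C.ConnectedComponent, c.supp.ncard + 3 ≤ p)) →
      ∀ (X : Finset (Fin p)) (H : SimpleGraph (Fin p)), SameDeck (sw C X) H →
        Nonempty (sw C X ≃g H)) ∧
    (∀ p : ℕ, p ≠ 4 → ∀ C : SimpleGraph (Fin p), Rigid C → ∀ A : Finset (Fin p),
      IsInvariant C A → ∀ X : Finset (Fin p),
      (2 * (symmDiff X A).card + 3 ≤ p ∨ p + 3 ≤ 2 * (symmDiff X A).card) →
      ∀ H : SimpleGraph (Fin p), SameDeck (sw C X) H → Nonempty (sw C X ≃g H)) ∧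
    ((∀ (p : ℕ) (C : SimpleGraph (Fin p)) [DecidableRel C.Adj],
      (∀ v, 2 * p * C.degree v + 4 * C.edgeFinset.card < p ^ 2) → Rigid C) ∧
     (∀ (p : ℕ) (G : SimpleGraph (Fin p)) (V : Finset (Fin p)), IsInvariant G V → Odd V.card →
      ∃ S₀ : Finset (Fin p), Rigid (sw G S₀))) ∧
    (∀ p : ℕ, p ≠ 4 → ∀ (C : SimpleGraph (Fin p)) [DecidableRel C.Adj] (X : Finset (Fin p)),
      (2 * X.card + 24 * (4 * C.edgeFinset.card / p) + 3 ≤ p ∨
        p + 24 * (4 * C.edgeFinset.card / p) + 3 ≤ 2 * X.card) →
      ∀ H : SimpleGraph (Fin p), SameDeck (sw C X) H → Nonempty (sw C X ≃g H)) ∧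
    (∀ p : ℕ, p ≠ 4 → ∀ (C : SimpleGraph (Fin p)) (δ : ℕ),
      (∀ S : Finset (Fin p), Nonempty (sw C S ≃g C) → S.card ≤ δ ∨ p ≤ S.card + δ) →
      ∀ A : Finset (Fin p), IsInvariant C A → ∀ X : Finset (Fin p),
      (2 * (symmDiff X A).card + 24 * δ + 3 ≤ p ∨ p + 24 * δ + 3 ≤ 2 * (symmDiff X A).card) →
      ∀ H : SimpleGraph (Fin p), SameDeck (sw C X) H → Nonempty (sw C X ≃g H)) := by
  refine ⟨?_, ?_, ?_, ⟨?_, ?_⟩, ?_, ?_⟩
  · intro p hp G Y hY hd X H hdeck
    exact three_odd (by rwa [Fintype.card_fin]) G (Y 0) (Y 1) (Y 2) (hY 0).2 (hY 1).2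
      (hY 2).2 (hY 0).1 (hY 1).1 (hY 2).1 (hd 0 1 (by decide)) (hd 0 2 (by decide))
      (hd 1 2 (by decide)) X H hdeck
  · intro p hp C _ hC X H hdeck
    rcases hC with hm | ⟨hr, T, hT, hfix⟩ | ⟨hr, h3, hsz⟩
    · exact Half.whole_edges (by rwa [Fintype.card_fin]) C (by rwa [Fintype.card_fin]) X H hdeck
    · exact fixed_rigid (by rwa [Fintype.card_fin]) C hr T hT hfix X H hdeck
    · exact whole_rigid (by rwa [Fintype.card_fin]) C hr h3 (by simpa using hsz) X H hdeck
  · intro p hp C hr A hA X hX H hdeck
    exact half_rigid_inv (by rwa [Fintype.card_fin]) C hr A hA X (by rwa [Fintype.card_fin]) H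
      hdeck
  · intro p C _ hdeg
    exact rigid_deg C (by simpa using hdeg)
  · intro p G V hV hodd
    exact rigid_of_odd G V hV hodd
  · intro p hp C _ X hX H hdeck
    refine Half.core (by rwa [Fintype.card_fin]) C (4 * C.edgeFinset.card / p) ?_ X ?_ H hdeck
    · intro S hS
      have := Half.copies_edges C S hS
      rw [Fintype.card_fin] at this ⊢
      exact this
    · rw [Fintype.card_fin]
      exact hX
  · intro p hp C δ hδ A hA X hX H hdeck
    refine Half.general (by rwa [Fintype.card_fin]) C δ ?_ A hA X ?_ H hdeck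
    · intro S hS
      rw [Fintype.card_fin]
      exact hδ S hS
    · rw [Fintype.card_fin]
      exact hX

end Pool.Agent.Results.MP_e73337_co.SparseClasses
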