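import Pool.Agent.TRC.Tree
import Pool.Agent.TRD.Deg
import Pool.Agent.TRB.Clique
import Pool.Agent.TRB.Outer
import Pool.Agent.TRE.Fin
import Pool.Agent.TRG.Fin
import Pool.Agent.TRC.MMIX
import Pool.Agent.TRC.MOPP
import Pool.Agent.TRC.MPRR
import Pool.Agent.TRC.MISO
import Pool.Agent.TRC.MPRM
import Pool.Agent.TRC.MSCL
import Pool.Agent.TRC.MCL2
import Pool.Agent.TRC.MTYP
import Pool.Agent.TRC.MLEA
import Pool.Agent.TRC.MUNI
import Pool.Agent.TRC.MEX1
import Pool.Agent.TRC.MEX2

set_option autoImplicit false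

namespace Pool.Agent.Results.MP_e73337_co.Trees

open Pool.Agent.Lib_helper61.SwitchBasic Pool.Agent.Lib_helper61.SwMain Pool.Agent.TRC Finset
open Pool.Agent.TRD (orb cpt Td)
open Pool.Agent.TRB (NonCross)

/-- `G` is switching-reconstructible: every graph with the same switching deck is isomorphic to
`G`. -/
def Recon {p : ℕ} (G : SimpleGraph (Fin p)) : Prop :=
  ∀ H : SimpleGraph (Fin p), SameDeck G H → Nonempty (G ≃g H)

/-- `C[X]` is 2-connected: at least three vertices, connected after removing any vertex. -/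
def TwoConn {p : ℕ} (C : SimpleGraph (Fin p)) (X : Finset (Fin p)) : Prop :=
  3 ≤ X.card ∧ ∀ x ∈ X, (C.induce {v | v ∈ X ∧ v ≠ x}).Connected

theorem mixed (p : ℕ) (hp : p ≠ 4) (C : SimpleGraph (Fin p)) (c : Fin p)
    (hc : ∀ x, x ≠ c → 2 * (blk C c x).card < p ∧ (∃ y ∈ blk C c x, C.Adj c y) ∧
      ∃ y ∈ blk C c x, ¬ C.Adj c y) : AllRec C := by
  intro t t' hdeck
  by_contra hne
  obtain ⟨⟨m, hm⟩, h0⟩ := four_dvd hdeck hne
  have hc1 : ∀ x, x ≠ c → 2 * (blk C c x).card < Fintype.card (Fin p) := by
    intro x hx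
    rw [Fintype.card_fin]
    exact (hc x hx).1
  apply hne
  exact central_vertex (by simpa using hp) C c hc1
    (t_MIX (Fin p) C c ⟨2 * m, by omega⟩ hc1 fun x hx => (hc x hx).2) t t' hdeck

/-- Let `p ≠ 4` and let `C` be a graph on `p` vertices of one of the following kinds:
* a tree;
* a forest, `p > 64`;
* a graph of maximum degree at most three, `p > 6739216`;
* an outerplanar graph with all degrees less than `p / 2 - 4`, `p > 4096`;
* a graph such that all automorphisms of the switching class are automorphisms of `C` (for instance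
  because all degrees are less than `p / 2 - 2 m / p`, `m` the number of edges), and
  - some branch `Td C b` (`b` with the components of `D - b` that have fewer than half of the vertices
    of `D`, the component of `b`) has more than `4 n` vertices, `n` the number of images of `b` under
    the automorphisms of `C`, or more than `2 √p` vertices; or
  - `p > 64`, and `16 |X|² < p` or `8 |Aut C[X]| < 2 ^ ⌈|X| / 2⌉` for every 2-connected induced
    subgraph `C[X]`; or
  - `C` is connected, `p > 16`, and every 2-connected induced subgraph `C[X]` has `4 |X|² < p` or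
    `4 |Aut C[X]| < 2 ^ ⌈|X| / 2⌉` or is complete;
* a graph with a vertex `c` such that every component of `C - c` has fewer than `p / 2` vertices, and
  either each of them contains a neighbour and a non-neighbour of `c`, or `c` is fixed by all
  automorphisms of the switching class.
Then every graph that can be switched into `C` is switching-reconstructible. -/
theorem result (p : ℕ) (hp : p ≠ 4) (C : SimpleGraph (Fin p))
    (hC : C.IsTree ∨ (64 < p ∧ C.IsAcyclic) ∨
      (6739216 < p ∧ ∀ v, (C.neighborSet v).ncard ≤ 3) ∨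
      (4096 < p ∧ (∀ v, 2 * (C.neighborSet v).ncard + 8 < p) ∧ NonCross C) ∨
      (((∀ v, 2 * p * (C.neighborSet v).ncard + 4 * C.edgeSet.ncard < p ^ 2) ∨
          ∀ σ, IsClassAut C σ → IsAut C σ) ∧
        ((∃ b, 4 * (orb C b).card < (Td C b).card ∨ 4 * p < (Td C b).card ^ 2) ∨
          (64 < p ∧ ∀ X, TwoConn C X → 16 * X.card ^ 2 < p ∨
            8 * Nat.card (C.induce {v | v ∈ X} ≃g C.induce {v | v ∈ X}) <
              2 ^ (X.card - X.card / 2)) ∨
          (C.Connected ∧ 16 < p ∧ ∀ X, TwoConn C X → 4 * X.card ^ 2 < p ∨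
            (∀ x ∈ X, ∀ y ∈ X, x ≠ y → C.Adj x y) ∨
            4 * Nat.card (C.induce {v | v ∈ X} ≃g C.induce {v | v ∈ X}) <
              2 ^ (X.card - X.card / 2)))) ∨
      (∃ c, (∀ x, x ≠ c → 2 * (blk C c x).card < p) ∧
        ((∀ x, x ≠ c → (∃ y ∈ blk C c x, C.Adj c y) ∧ ∃ y ∈ blk C c x, ¬ C.Adj c y) ∨
          ∀ σ, IsClassAut C σ → σ c = c)))
    (G : SimpleGraph (Fin p)) (S : Finset (Fin p)) (hG : sw G S = C) : Recon G := by
  have hp' : Fintype.card (Fin p) ≠ 4 := by simpa using hp
  have hG' : G = sw C S := by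
    rw [← hG, sw_sw, symmDiff_self, Finset.bot_eq_empty, sw_empty]
  have key : AllRec C := by
    rcases hC with h | ⟨h64, h⟩ | ⟨hN, h⟩ | ⟨hN, hd, h⟩ | ⟨hA', h⟩ | ⟨c, h, h' | hσ⟩
    · exact tree_all t_TYP t_LEA t_SCL t_UNI t_CL2 (t_EX1 t_OPP t_PRR t_ISO t_PRM)
        (t_EX2 t_OPP t_PRR t_ISO t_PRM) hp' C h
    · exact TRG.forest (by simpa using h64) C h
    · exact TRE.subcubic C h (by simpa using hN)
    · exact TRB.OUTE.outerplanar_half C h (by simpa using hd) (by simpa using hN)
    · have hA : ∀ σ, IsClassAut C σ → IsAut C σ := by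
        rcases hA' with h1 | h1
        · exact TRD.deg_aut3 C (by simpa using h1)
        · exact h1
      rcases h with ⟨b, h⟩ | ⟨h64, h⟩ | ⟨hc, h16, h⟩
      · exact TRD.cut_general C hA b (by simpa using h)
      · refine TRB.FEW.blocks_few C hA (by simpa using h64) fun X h3 hX => ?_
        simpa using h X ⟨h3, hX⟩
      · refine TRB.CLQ.blocks C hc hA (by simpa using h16) fun X h3 hX => ?_
        simpa using h X ⟨h3, hX⟩
    · exact mixed p hp C c fun x hx => ⟨h x hx, h' x hx⟩
    · exact central_vertex hp' C c (by simpa using h) hσ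
  intro H hdeck
  rw [hG'] at hdeck ⊢
  exact of_all key S H hdeck

end Pool.Agent.Results.MP_e73337_co.Trees
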